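import Pool.Agent.Helper56.BR.Defs

/-!
# Block LOC of project BR: Teichmueller lifts
-/

set_option autoImplicit false

namespace Pool.Agent.Helper57.BR

open Pool.Agent.Helper56.BR

universe u v w

section general

variable {E : Type u} [NormedDivisionRing E] [IsUltrametricDist E]

theorem norm_one_add_pow_sub_one_le {x : E} (hx : ‖x‖ ≤ 1) (n : ℕ) :
    ‖(1 + x) ^ n - 1‖ ≤ ‖x‖ := by
  have h1 : ‖(1 : E) + x‖ ≤ 1 :=
    (IsUltrametricDist.norm_add_le_max _ _).trans (by simp [hx])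
  induction n with
  | zero => simp
  | succ n ih =>
    have : (1 + x) ^ (n + 1) - 1 = ((1 + x) ^ n - 1) * (1 + x) + x := by
      rw [pow_succ, sub_mul, one_mul]; abel
    rw [this]
    refine (IsUltrametricDist.norm_add_le_max _ _).trans (max_le ?_ le_rfl)
    rw [norm_mul]
    calc ‖(1 + x) ^ n - 1‖ * ‖1 + x‖ ≤ ‖x‖ * 1 :=
          mul_le_mul ih h1 (norm_nonneg _) (norm_nonneg _)
      _ = ‖x‖ := mul_one _

theorem norm_sum_le_of_le {ι : Type*} (s : Finset ι) (g : ι → E) {C : ℝ} (hC : 0 ≤ C)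
    (h : ∀ i ∈ s, ‖g i‖ ≤ C) : ‖∑ i ∈ s, g i‖ ≤ C := by
  classical
  induction s using Finset.induction_on with
  | empty => simpa using hC
  | insert a s ha ih =>
    rw [Finset.sum_insert ha]
    exact (IsUltrametricDist.norm_add_le_max _ _).trans
      (max_le (h a (Finset.mem_insert_self _ _))
        (ih fun i hi => h i (Finset.mem_insert_of_mem hi)))

theorem norm_one_add_pow_sub_one_le' {x : E} {r : ℝ} (hr1 : r ≤ 1) (hx : ‖x‖ ≤ r) {Q : ℕ}
    (hQ : ‖(Q : E)‖ ≤ r) : ‖(1 + x) ^ Q - 1‖ ≤ ‖x‖ * r := by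
  have hr0 : 0 ≤ r := (norm_nonneg _).trans hx
  have h1 : (1 + x) ^ Q - 1 = x * ∑ i ∈ Finset.range Q, (1 + x) ^ i := by
    have := mul_geom_sum (1 + x) Q
    rw [← this]; simp
  rw [h1, norm_mul]
  refine mul_le_mul_of_nonneg_left ?_ (norm_nonneg _)
  have h2 : ∑ i ∈ Finset.range Q, (1 + x) ^ i =
      ∑ i ∈ Finset.range Q, ((1 + x) ^ i - 1) + (Q : E) := by
    simp [Finset.sum_sub_distrib]
  rw [h2]
  refine (IsUltrametricDist.norm_add_le_max _ _).trans (max_le ?_ hQ)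
  exact norm_sum_le_of_le _ _ hr0 fun i _ =>
    (norm_one_add_pow_sub_one_le (hx.trans hr1) i).trans hx

theorem norm_pow_pow_sub_one_le {x : E} {r : ℝ} (hr1 : r ≤ 1) (hx : ‖x‖ ≤ r) {Q : ℕ}
    (hQ : ‖(Q : E)‖ ≤ r) (n : ℕ) : ‖(1 + x) ^ (Q ^ n) - 1‖ ≤ ‖x‖ * r ^ n := by
  have hr0 : 0 ≤ r := (norm_nonneg _).trans hx
  induction n with
  | zero => simp
  | succ n ih =>
    set w := (1 + x) ^ (Q ^ n) - 1 with hw
    have h1 : (1 + x) ^ (Q ^ (n + 1)) = (1 + w) ^ Q := by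
      rw [hw, add_sub_cancel, ← pow_mul, pow_succ]
    have hw1 : ‖w‖ ≤ r := ih.trans (by
      calc ‖x‖ * r ^ n ≤ r * 1 :=
            mul_le_mul hx (pow_le_one₀ hr0 hr1) (pow_nonneg hr0 _) hr0
        _ = r := mul_one r)
    rw [h1]
    calc ‖(1 + w) ^ Q - 1‖ ≤ ‖w‖ * r := norm_one_add_pow_sub_one_le' hr1 hw1 hQ
      _ ≤ (‖x‖ * r ^ n) * r := mul_le_mul_of_nonneg_right ih hr0
      _ = ‖x‖ * r ^ (n + 1) := by ring

/-- Teichmueller lift in a complete division ring -/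
theorem teich_gen [CompleteSpace E] {Q : ℕ} (hQ : 1 < Q) (hQ1 : ‖(Q : E)‖ < 1) {a : E}
    (ha : ‖a ^ (Q - 1) - 1‖ < 1) : ∃ z : E, z ^ (Q - 1) = 1 ∧ ‖z - a‖ < 1 := by
  set x := a ^ (Q - 1) - 1 with hx
  have hax : a ^ (Q - 1) = 1 + x := by rw [hx]; abel
  have hna : ‖a‖ = 1 := by
    have h1 : ‖a ^ (Q - 1)‖ = 1 := by
      rw [hax]
      have h2 : ‖x‖ ≠ ‖(1 : E)‖ := by rw [norm_one]; exact ha.ne
      have := IsUltrametricDist.norm_add_eq_max_of_norm_ne_norm h2.symm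
      rw [this, norm_one, max_eq_left ha.le]
    rw [norm_pow] at h1
    exact (pow_eq_one_iff_of_nonneg (norm_nonneg _) (by omega)).1 h1
  set r := max ‖(Q : E)‖ ‖x‖ with hr
  have hr1 : r < 1 := max_lt hQ1 ha
  have hr0 : 0 ≤ r := (norm_nonneg _).trans (le_max_left _ _)
  have hstep : ∀ n : ℕ, ‖a ^ (Q ^ (n + 1)) - a ^ (Q ^ n)‖ ≤ ‖x‖ * r ^ n := by
    intro n
    have h1 : a ^ (Q ^ (n + 1)) - a ^ (Q ^ n) = a ^ (Q ^ n) * ((1 + x) ^ (Q ^ n) - 1) := by
      rw [mul_sub, mul_one, ← hax, ← pow_mul, ← pow_add]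
      congr 2
      obtain ⟨m, rfl⟩ : ∃ m, Q = m + 1 := ⟨Q - 1, by omega⟩
      rw [Nat.add_sub_cancel]; ring
    rw [h1, norm_mul, norm_pow, hna, one_pow, one_mul]
    exact norm_pow_pow_sub_one_le hr1.le (le_max_right _ _) (le_max_left _ _) n
  have hcau : CauchySeq fun n : ℕ => a ^ (Q ^ n) := by
    refine cauchySeq_of_le_geometric r ‖x‖ hr1 fun n => ?_
    rw [dist_comm, dist_eq_norm]
    exact hstep n
  obtain ⟨z, hz⟩ := cauchySeq_tendsto_of_complete hcau
  have hzQ : z ^ Q = z := by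
    have h1 : Filter.Tendsto (fun n : ℕ => (a ^ (Q ^ n)) ^ Q) Filter.atTop (nhds (z ^ Q)) :=
      hz.pow Q
    have h2 : Filter.Tendsto (fun n : ℕ => a ^ (Q ^ (n + 1))) Filter.atTop (nhds z) :=
      hz.comp (Filter.tendsto_add_atTop_nat 1)
    have h3 : (fun n : ℕ => (a ^ (Q ^ n)) ^ Q) = fun n : ℕ => a ^ (Q ^ (n + 1)) := by
      funext n; rw [← pow_mul, pow_succ]
    rw [h3] at h1
    exact tendsto_nhds_unique h1 h2
  have hza : ‖z - a‖ ≤ ‖x‖ := by
    have h1 : ∀ n : ℕ, ‖a ^ (Q ^ n) - a‖ ≤ ‖x‖ := by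
      intro n
      induction n with
      | zero => simp
      | succ n ih =>
        have : a ^ (Q ^ (n + 1)) - a = (a ^ (Q ^ (n + 1)) - a ^ (Q ^ n)) + (a ^ (Q ^ n) - a) := by
          abel
        rw [this]
        refine (IsUltrametricDist.norm_add_le_max _ _).trans (max_le ?_ ih)
        refine (hstep n).trans ?_
        calc ‖x‖ * r ^ n ≤ ‖x‖ * 1 :=
              mul_le_mul_of_nonneg_left (pow_le_one₀ hr0 hr1.le) (norm_nonneg _)
          _ = ‖x‖ := mul_one _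
    have h2 : Filter.Tendsto (fun n : ℕ => ‖a ^ (Q ^ n) - a‖) Filter.atTop (nhds ‖z - a‖) :=
      (hz.sub_const a).norm
    exact le_of_tendsto' h2 h1
  refine ⟨z, ?_, hza.trans_lt ha⟩
  have hz0 : z ≠ 0 := by
    rintro rfl
    rw [zero_sub, norm_neg, hna] at hza
    exact absurd (hza.trans_lt ha) (lt_irrefl _)
  have h3 : z ^ (Q - 1) * z = 1 * z := by
    rw [one_mul, ← pow_succ, Nat.sub_add_cancel hQ.le, hzQ]
  exact mul_right_cancel₀ hz0 h3

end general

/-- T -/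
theorem teich {E : Type u} [NormedField E] [IsUltrametricDist E] [CompleteSpace E]
    {Q : ℕ} (hQ : 1 < Q) (hQ1 : ‖(Q : E)‖ < 1) {a : E} (ha : ‖a ^ (Q - 1) - 1‖ < 1) :
    ∃ z : E, z ^ (Q - 1) = 1 ∧ ‖z - a‖ < 1 :=
  teich_gen hQ hQ1 ha

section division

variable {F : Type u} [NontriviallyNormedField F] {D : Type v} [DivisionRing D] [Algebra F D]
  {nu : D → ℝ}

theorem nu_one (hnu : NormOn F nu) : nu 1 = 1 := by
  have := hnu.ext (1 : F)
  rwa [map_one, norm_one] at this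

theorem nu_neg (hnu : NormOn F nu) (x : D) : nu (-x) = nu x := by
  have h1 : nu (-1 : D) = 1 := by
    have := hnu.ext (-1 : F)
    rwa [map_neg, map_one, norm_neg, norm_one] at this
  have h2 := hnu.mul (-1) x
  rwa [neg_one_mul, h1, one_mul] at h2

/-- the normed division ring structure on `D` -/
@[reducible]
def nd (hnu : NormOn F nu) : NormedDivisionRing D where
  norm := nu
  dist x y := nu (x - y)
  dist_self x := by rw [sub_self]; exact (hnu.eq_zero 0).2 rfl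
  dist_comm x y := by rw [← nu_neg hnu, neg_sub]
  dist_triangle x y z := by
    have h1 : x - z = (x - y) + (y - z) := by abel
    rw [h1]
    refine (hnu.add _ _).trans (max_le ?_ ?_)
    · linarith [hnu.nonneg (y - z)]
    · linarith [hnu.nonneg (x - y)]
  eq_of_dist_eq_zero {x y} h := sub_eq_zero.1 ((hnu.eq_zero _).1 h)
  dist_eq x y := by
    rw [← nu_neg hnu]; congr 1; abel
  norm_mul := hnu.mul

/-- T2: Teichmueller lift in a central division algebra -/
theorem teich_D [IsUltrametricDist F] [CompleteSpace F] {q : ℕ} {p : F} (hF : LF F q p)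
    [FiniteDimensional F D] (hnu : NormOn F nu) {f : ℕ} (hf : 0 < f)
    {a : D} (h1 : nu a = 1) (ha : ∀ k : ℕ, nu (a ^ k - 1) < 1 ↔ (q ^ f - 1) ∣ k) :
    ∃ z : D, z ^ (q ^ f - 1) = 1 ∧ ∀ k : ℕ, nu (z ^ k - 1) < 1 ↔ (q ^ f - 1) ∣ k := by
  let _ := nd hnu
  let _ : NormedSpace F D :=
    { (Algebra.toModule : Module F D) with
      norm_smul_le := fun c x => by
        change nu (c • x) ≤ ‖c‖ * nu x
        rw [Algebra.smul_def, hnu.mul, hnu.ext] }
  have : IsUltrametricDist D := by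
    refine ⟨fun x y z => ?_⟩
    change nu (x - z) ≤ max (nu (x - y)) (nu (y - z))
    have h1 : x - z = (x - y) + (y - z) := by abel
    rw [h1]; exact hnu.add _ _
  have : CompleteSpace D := FiniteDimensional.complete F D
  have hQ : 1 < q ^ f := Nat.one_lt_pow hf.ne' hF.one_lt
  have hQ1 : ‖((q ^ f : ℕ) : D)‖ < 1 := by
    have h2 : ((q ^ f : ℕ) : D) = algebraMap F D ((q : F) ^ f) := by
      rw [map_pow, map_natCast, Nat.cast_pow]
    change nu ((q ^ f : ℕ) : D) < 1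
    rw [h2, hnu.ext, norm_pow]
    exact pow_lt_one₀ (norm_nonneg _) hF.q_lt hf.ne'
  obtain ⟨z, hz, hza⟩ := teich_gen hQ hQ1 (a := a) ((ha _).2 dvd_rfl)
  refine ⟨z, hz, fun k => ?_⟩
  rw [← ha k]
  have hz1 : nu z = 1 := by
    have h3 : nu z ^ (q ^ f - 1) = 1 := by
      have h4 : ‖z ^ (q ^ f - 1)‖ = ‖(1 : D)‖ := by rw [hz]
      rw [norm_pow, norm_one] at h4
      exact h4
    exact (pow_eq_one_iff_of_nonneg (hnu.nonneg _) (by omega)).1 h3
  have hk : ∀ k : ℕ, nu (z ^ k - a ^ k) < 1 := by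
    intro k
    induction k with
    | zero => rw [pow_zero, pow_zero, sub_self, (hnu.eq_zero 0).2 rfl]; exact one_pos
    | succ k ih =>
      have h5 : z ^ (k + 1) - a ^ (k + 1) = z ^ k * (z - a) + (z ^ k - a ^ k) * a := by
        rw [mul_sub, sub_mul, pow_succ, pow_succ]; abel
      rw [h5]
      refine (hnu.add _ _).trans_lt (max_lt ?_ ?_)
      · rw [hnu.mul]
        have h6 : nu (z ^ k) = 1 := by
          have h7 : ‖z ^ k‖ = ‖z‖ ^ k := norm_pow z k
          change nu (z ^ k) = nu z ^ k at h7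
          rw [h7, hz1, one_pow]
        rw [h6, one_mul]; exact hza
      · rw [hnu.mul, h1, mul_one]; exact ih
  constructor
  · intro h
    have h8 : a ^ k - 1 = (z ^ k - 1) + -(z ^ k - a ^ k) := by abel
    rw [h8]
    refine (hnu.add _ _).trans_lt (max_lt h ?_)
    rw [nu_neg hnu]; exact hk k
  · intro h
    have h8 : z ^ k - 1 = (a ^ k - 1) + (z ^ k - a ^ k) := by abel
    rw [h8]
    exact (hnu.add _ _).trans_lt (max_lt h (hk k))

end division

end Pool.Agent.Helper57.BR
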