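import Pool.Agent.Helper57.BR.Root

/-!
# Block LOC of project BR: the residue division ring
-/

set_option autoImplicit false

namespace Pool.Agent.Helper57.BR

open Pool.Agent.Helper56.BR

universe u v w

section

variable {F : Type u} [NontriviallyNormedField F] {D : Type v} [DivisionRing D] [Algebra F D]
  {nu : D → ℝ}

/-- the valuation ring of `D` -/
def dO (hnu : NormOn F nu) : Subring D where
  carrier := {x | nu x ≤ 1}
  mul_mem' {a b} ha hb := by
    change nu (a * b) ≤ 1
    rw [hnu.mul]; exact mul_le_one₀ ha (hnu.nonneg _) hb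
  one_mem' := by change nu (1 : D) ≤ 1; rw [nu_one hnu]
  add_mem' {a b} ha hb := (hnu.add _ _).trans (max_le ha hb)
  zero_mem' := by change nu (0 : D) ≤ 1; rw [(hnu.eq_zero 0).2 rfl]; exact zero_le_one
  neg_mem' {a} ha := by change nu (-a) ≤ 1; rw [nu_neg hnu]; exact ha

/-- its maximal ideal -/
def dM (hnu : NormOn F nu) : Ideal (dO hnu) where
  carrier := {x | nu (x : D) < 1}
  add_mem' {a b} ha hb := (hnu.add _ _).trans_lt (max_lt ha hb)
  zero_mem' := by
    change nu ((0 : dO hnu) : D) < 1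
    rw [Subring.coe_zero, (hnu.eq_zero 0).2 rfl]; exact one_pos
  smul_mem' c x hx := by
    change nu ((c * x : dO hnu) : D) < 1
    rw [Subring.coe_mul, hnu.mul]
    have h1 : nu (c : D) ≤ 1 := c.2
    calc nu (c : D) * nu (x : D) ≤ 1 * nu (x : D) :=
          mul_le_mul_of_nonneg_right h1 (hnu.nonneg _)
      _ = nu (x : D) := one_mul _
      _ < 1 := hx

theorem mem_dM (hnu : NormOn F nu) (x : dO hnu) : x ∈ dM hnu ↔ nu (x : D) < 1 := Iff.rfl

instance dM_two (hnu : NormOn F nu) : (dM hnu).IsTwoSided where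
  mul_mem_of_left {a} b ha := by
    rw [mem_dM] at ha ⊢
    rw [Subring.coe_mul, hnu.mul]
    have h1 : nu (b : D) ≤ 1 := b.2
    calc nu (a : D) * nu (b : D) ≤ nu (a : D) * 1 :=
          mul_le_mul_of_nonneg_left h1 (hnu.nonneg _)
      _ = nu (a : D) := mul_one _
      _ < 1 := ha

/-- the residue ring -/
abbrev dk (hnu : NormOn F nu) := dO hnu ⧸ dM hnu

theorem dmk_eq_zero (hnu : NormOn F nu) (x : dO hnu) :
    Ideal.Quotient.mk (dM hnu) x = 0 ↔ nu (x : D) < 1 := by
  rw [Ideal.Quotient.eq_zero_iff_mem]; exact Iff.rfl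

instance dk_nontrivial (hnu : NormOn F nu) : Nontrivial (dk hnu) := by
  refine ⟨⟨0, 1, fun h => ?_⟩⟩
  have h1 : Ideal.Quotient.mk (dM hnu) 1 = 0 := by rw [map_one]; exact h.symm
  rw [dmk_eq_zero, Subring.coe_one, nu_one hnu] at h1
  exact lt_irrefl _ h1

instance dk_domain (hnu : NormOn F nu) : IsDomain (dk hnu) := by
  have : NoZeroDivisors (dk hnu) := by
    refine ⟨fun {x y} hxy => ?_⟩
    obtain ⟨a, rfl⟩ := Ideal.Quotient.mk_surjective x
    obtain ⟨b, rfl⟩ := Ideal.Quotient.mk_surjective y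
    rw [← map_mul, dmk_eq_zero, Subring.coe_mul, hnu.mul] at hxy
    rw [dmk_eq_zero, dmk_eq_zero]
    by_contra h
    rw [not_or, not_lt, not_lt] at h
    exact absurd hxy (not_lt.2 (by nlinarith [h.1, h.2]))
  exact NoZeroDivisors.to_isDomain _

theorem dmk_pow (hnu : NormOn F nu) (x : dO hnu) (k : ℕ) :
    nu ((x : D) ^ k - 1) < 1 ↔ (Ideal.Quotient.mk (dM hnu) x) ^ k = 1 := by
  rw [← map_pow, ← (Ideal.Quotient.mk (dM hnu)).map_one, ← sub_eq_zero, ← map_sub, dmk_eq_zero]
  exact Iff.rfl

variable [IsUltrametricDist F]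

/-- the number of residues -/
theorem card_res {q : ℕ} {p : F} (hF : LF F q p) :
    Nat.card (ballO F ⧸ ballM F) = q ∧ Finite (ballO F ⧸ ballM F) := by
  classical
  obtain ⟨S, hS, hS1, hS2⟩ := hF.res
  let g : S → ballO F ⧸ ballM F := fun s => Ideal.Quotient.mk (ballM F) ⟨s.1, hS1 s.1 s.2⟩
  have hg : Function.Bijective g := by
    constructor
    · intro s t hst
      have h1 : (⟨s.1, hS1 s.1 s.2⟩ - ⟨t.1, hS1 t.1 t.2⟩ : ballO F) ∈ ballM F :=
        (Ideal.Quotient.eq).1 hst
      have h2 : ‖s.1 - t.1‖ < 1 := h1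
      obtain ⟨s0, -, hs0⟩ := hS2 s.1 (hS1 s.1 s.2)
      have h3 := hs0 s.1 ⟨s.2, by rw [sub_self, norm_zero]; exact one_pos⟩
      have h4 := hs0 t.1 ⟨t.2, h2⟩
      exact Subtype.ext (h3.trans h4.symm)
    · intro y
      obtain ⟨x, rfl⟩ := Ideal.Quotient.mk_surjective y
      obtain ⟨s0, ⟨hs0, hs1⟩, -⟩ := hS2 x.1 x.2
      refine ⟨⟨s0, hs0⟩, ?_⟩
      refine (Ideal.Quotient.eq.2 ?_).symm
      change ‖x.1 - s0‖ < 1
      exact hs1
  refine ⟨?_, Finite.of_surjective g hg.2⟩
  rw [← Nat.card_eq_of_bijective g hg]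
  simp [hS]

/-- the residue map of `F` into that of `D` -/
def resMap (hnu : NormOn F nu) : (ballO F ⧸ ballM F) →+* dk hnu :=
  Ideal.Quotient.lift (ballM F)
    ((Ideal.Quotient.mk (dM hnu)).comp
      ({ toFun := fun x => ⟨algebraMap F D x.1, by
            change nu (algebraMap F D x.1) ≤ 1
            rw [hnu.ext]; exact x.2⟩
         map_one' := Subtype.ext (map_one _)
         map_mul' := fun x y => Subtype.ext (map_mul _ _ _)
         map_zero' := Subtype.ext (map_zero _)
         map_add' := fun x y => Subtype.ext (map_add _ _ _) } : ballO F →+* dO hnu))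
    (by
      intro x hx
      rw [RingHom.comp_apply, dmk_eq_zero]
      change nu (algebraMap F D x.1) < 1
      rw [hnu.ext]; exact hx)

theorem resMap_mk (hnu : NormOn F nu) (x : ballO F) (hx : nu (algebraMap F D x.1) ≤ 1) :
    resMap hnu (Ideal.Quotient.mk (ballM F) x) =
      Ideal.Quotient.mk (dM hnu) ⟨algebraMap F D x.1, hx⟩ := rfl

end

/-- R -/
theorem residue {F : Type u} [NontriviallyNormedField F] [IsUltrametricDist F]
    [CompleteSpace F] {q : ℕ} {p : F} (hF : LF F q p) {D : Type v} [DivisionRing D]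
    [Algebra F D] [FiniteDimensional F D] {nu : D → ℝ} (hnu : NormOn F nu) :
    ∃ f : ℕ, 0 < f ∧ (∃ a : D, nu a = 1 ∧ ∀ k : ℕ, nu (a ^ k - 1) < 1 ↔ (q ^ f - 1) ∣ k) ∧
      ∃ u : Fin f → D, (∀ i, nu (u i) ≤ 1) ∧
        ∀ y : D, nu y ≤ 1 → ∃ c : Fin f → F, (∀ i, ‖c i‖ ≤ 1) ∧
          nu (y - ∑ i, algebraMap F D (c i) * u i) < 1 := by
  classical
  let _ : Field (ballO F ⧸ ballM F) := Ideal.Quotient.field (ballM F)
  let _ : Module (ballO F ⧸ ballM F) (dk hnu) := Module.compHom _ (resMap hnu)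
  -- cardinality of the residue field of `F`
  have hcard := card_res hF
  obtain ⟨hcard, hfin⟩ := hcard
  have hsm : ∀ (c : ballO F ⧸ ballM F) (x : dk hnu), c • x = resMap hnu c * x := fun _ _ => rfl
  -- independent elements lift to independent elements
  have hind : ∀ s : Finset (dk hnu),
      (LinearIndependent (ballO F ⧸ ballM F) fun i : s => (i : dk hnu)) →
      s.card ≤ Module.finrank F D := by
    intro s hs
    let l : s → D := fun i => (Ideal.Quotient.mk_surjective (i : dk hnu)).choose.1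
    have hl : ∀ i : s, ∃ h : nu (l i) ≤ 1, Ideal.Quotient.mk (dM hnu) ⟨l i, h⟩ = (i : dk hnu) :=
      fun i => ⟨(Ideal.Quotient.mk_surjective (i : dk hnu)).choose.2,
        (Ideal.Quotient.mk_surjective (i : dk hnu)).choose_spec⟩
    have hli : LinearIndependent F l := by
      rw [Fintype.linearIndependent_iff]
      intro g hg
      by_contra hne
      rw [not_forall] at hne
      obtain ⟨i0, hi0⟩ := hne
      -- the largest coefficient
      obtain ⟨j, -, hj⟩ := Finset.exists_max_image Finset.univ (fun i => ‖g i‖) ⟨i0, Finset.mem_univ _⟩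
      have hgj : g j ≠ 0 := by
        intro h0
        have := hj i0 (Finset.mem_univ _)
        simp only [h0, norm_zero] at this
        exact hi0 (norm_le_zero_iff.1 this)
      let c : s → ballO F := fun i => ⟨g i / g j, by
        change ‖g i / g j‖ ≤ 1
        rw [norm_div]
        exact div_le_one_of_le₀ (hj i (Finset.mem_univ _)) (norm_nonneg _)⟩
      have hsum : ∑ i, (Ideal.Quotient.mk (ballM F) (c i)) • ((i : dk hnu)) = 0 := by
        have h1 : ∀ i : s, (Ideal.Quotient.mk (ballM F) (c i)) • ((i : dk hnu)) =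
            Ideal.Quotient.mk (dM hnu) (⟨algebraMap F D (g i / g j), by
              change nu _ ≤ 1
              rw [hnu.ext]; exact (c i).2⟩ * ⟨l i, (hl i).1⟩) := by
          intro i
          rw [hsm, map_mul, (hl i).2]
          rfl
        rw [Finset.sum_congr rfl fun i _ => h1 i, ← map_sum]
        have h2 : ∑ i : s, ((⟨algebraMap F D (g i / g j), by
              change nu _ ≤ 1
              rw [hnu.ext]; exact (c i).2⟩ * ⟨l i, (hl i).1⟩ : dO hnu)) = 0 := by
          apply Subtype.ext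
          rw [AddSubmonoidClass.coe_finsetSum]
          have h3 : ∀ i : s, ((⟨algebraMap F D (g i / g j), by
              change nu _ ≤ 1
              rw [hnu.ext]; exact (c i).2⟩ * ⟨l i, (hl i).1⟩ : dO hnu) : D) =
              (g j)⁻¹ • (g i • l i) := by
            intro i
            rw [Subring.coe_mul, smul_smul, Algebra.smul_def]
            congr 2
            change algebraMap F D (g i / g j) = _
            rw [div_eq_mul_inv, mul_comm]
          rw [Finset.sum_congr rfl fun i _ => h3 i, ← Finset.smul_sum, hg, smul_zero]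
          rfl
        rw [h2, map_zero]
      have h4 := Fintype.linearIndependent_iff.1 hs _ hsum j
      rw [Ideal.Quotient.eq_zero_iff_mem, mem_ballM] at h4
      change ‖g j / g j‖ < 1 at h4
      rw [div_self hgj, norm_one] at h4
      exact lt_irrefl _ h4
    have := hli.fintype_card_le_finrank
    simpa using this
  have hrank := rank_le hind
  have : Module.Finite (ballO F ⧸ ballM F) (dk hnu) := by
    rw [← Module.rank_lt_aleph0_iff]
    exact hrank.trans_lt Cardinal.natCast_lt_aleph0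
  let b := Module.finBasis (ballO F ⧸ ballM F) (dk hnu)
  set f := Module.finrank (ballO F ⧸ ballM F) (dk hnu) with hf
  have hf0 : 0 < f := Module.finrank_pos
  have hfk : Finite (dk hnu) := Module.finite_of_finite (ballO F ⧸ ballM F)
  have hck : Nat.card (dk hnu) = q ^ f := by
    rw [Module.natCard_eq_pow_finrank (K := ballO F ⧸ ballM F), hcard]
  refine ⟨f, hf0, ?_, ?_⟩
  · -- the multiplicative group
    have hF' : IsField (dk hnu) := Finite.isDomain_to_isField _
    let _ : Field (dk hnu) := hF'.toField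
    obtain ⟨c, hc⟩ := IsCyclic.exists_generator (α := (dk hnu)ˣ)
    have hord : orderOf c = q ^ f - 1 := by
      rw [orderOf_eq_card_of_forall_mem_zpowers hc, Nat.card_units, hck]
    obtain ⟨a, ha⟩ := Ideal.Quotient.mk_surjective (c : dk hnu)
    have hak : ∀ k : ℕ, nu ((a : D) ^ k - 1) < 1 ↔ (q ^ f - 1) ∣ k := by
      intro k
      rw [← hord, orderOf_dvd_iff_pow_eq_one, ← Units.val_eq_one (a := c ^ k),
        Units.val_pow_eq_pow_val, ← ha]
      exact dmk_pow hnu a k
    refine ⟨a, le_antisymm a.2 (not_lt.1 fun h => ?_), hak⟩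
    have h0 : Ideal.Quotient.mk (dM hnu) a = 0 := (dmk_eq_zero hnu a).2 h
    rw [ha] at h0
    exact c.ne_zero h0
  · choose u hu using fun i => Ideal.Quotient.mk_surjective (b i)
    refine ⟨fun i => (u i : D), fun i => (u i).2, fun y hy => ?_⟩
    choose c hc using fun i => Ideal.Quotient.mk_surjective
      (b.repr (Ideal.Quotient.mk (dM hnu) ⟨y, hy⟩) i)
    refine ⟨fun i => (c i : F), fun i => (c i).2, ?_⟩
    have hcD : ∀ i, nu (algebraMap F D (c i : F)) ≤ 1 := fun i => by
      rw [hnu.ext]; exact (c i).2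
    have h1 : Ideal.Quotient.mk (dM hnu)
        (⟨y, hy⟩ - ∑ i, ⟨algebraMap F D (c i : F), hcD i⟩ * u i) = 0 := by
      rw [map_sub, map_sum, sub_eq_zero]
      conv_lhs => rw [← b.sum_repr (Ideal.Quotient.mk (dM hnu) ⟨y, hy⟩)]
      refine Finset.sum_congr rfl fun i _ => ?_
      rw [hsm, ← hc i, map_mul, hu i]
      rfl
    rw [dmk_eq_zero] at h1
    have h2 : ((⟨y, hy⟩ - ∑ i, ⟨algebraMap F D (c i : F), hcD i⟩ * u i : dO hnu) : D) =
        y - ∑ i, algebraMap F D (c i : F) * (u i : D) := by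
      rw [AddSubgroupClass.coe_sub, AddSubmonoidClass.coe_finsetSum]
      rfl
    rwa [h2] at h1

end Pool.Agent.Helper57.BR
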