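import Pool.Agent.Helper57.BR.Teich

/-!
# Block LOC of project BR: roots of unity in a local field
-/

set_option autoImplicit false

namespace Pool.Agent.Helper57.BR

open Pool.Agent.Helper56.BR

universe u v w

section

variable (F : Type u) [NontriviallyNormedField F] [IsUltrametricDist F]

/-- the unit ball as a subring -/
def ballO : Subring F where
  carrier := {x | ‖x‖ ≤ 1}
  mul_mem' {a b} ha hb := by
    change ‖a * b‖ ≤ 1
    rw [norm_mul]; exact mul_le_one₀ ha (norm_nonneg _) hb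
  one_mem' := by change ‖(1 : F)‖ ≤ 1; rw [norm_one]
  add_mem' {a b} ha hb := (IsUltrametricDist.norm_add_le_max _ _).trans (max_le ha hb)
  zero_mem' := by change ‖(0 : F)‖ ≤ 1; rw [norm_zero]; exact zero_le_one
  neg_mem' {a} ha := by change ‖-a‖ ≤ 1; rw [norm_neg]; exact ha

/-- the open unit ball as an ideal -/
def ballM : Ideal (ballO F) where
  carrier := {x | ‖(x : F)‖ < 1}
  add_mem' {a b} ha hb := (IsUltrametricDist.norm_add_le_max _ _).trans_lt (max_lt ha hb)
  zero_mem' := by change ‖((0 : ballO F) : F)‖ < 1; simp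
  smul_mem' c x hx := by
    change ‖((c * x : ballO F) : F)‖ < 1
    rw [Subring.coe_mul, norm_mul]
    have h1 : ‖(c : F)‖ ≤ 1 := c.2
    calc ‖(c : F)‖ * ‖(x : F)‖ ≤ 1 * ‖(x : F)‖ :=
          mul_le_mul_of_nonneg_right h1 (norm_nonneg _)
      _ = ‖(x : F)‖ := one_mul _
      _ < 1 := hx

theorem mem_ballM (x : ballO F) : x ∈ ballM F ↔ ‖(x : F)‖ < 1 := Iff.rfl

instance ballM_max : (ballM F).IsMaximal := by
  rw [Ideal.isMaximal_iff]
  refine ⟨?_, ?_⟩
  · rw [mem_ballM]; simp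
  · intro J x hJ hx hxJ
    rw [mem_ballM, not_lt] at hx
    have h1 : ‖(x : F)‖ = 1 := le_antisymm x.2 hx
    have h0 : (x : F) ≠ 0 := by
      rw [← norm_ne_zero_iff, h1]; exact one_ne_zero
    have h2 : (x : F)⁻¹ ∈ ballO F := by
      change ‖(x : F)⁻¹‖ ≤ 1
      rw [norm_inv, h1, inv_one]
    have h3 : (⟨(x : F)⁻¹, h2⟩ : ballO F) * x = 1 := by
      apply Subtype.ext
      change (x : F)⁻¹ * (x : F) = 1
      exact inv_mul_cancel₀ h0
    rw [← h3]; exact J.mul_mem_left _ hxJ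

/-- X : a local field with `q` residues contains a primitive root of unity of order `q - 1` -/
theorem exists_root_aux [CompleteSpace F] {q : ℕ} {p : F} (hF : LF F q p) :
    ∃ y : F, IsPrimitiveRoot y (q - 1) := by
  classical
  let _ : Field (ballO F ⧸ ballM F) := Ideal.Quotient.field (ballM F)
  obtain ⟨S, hS, hS1, hS2⟩ := hF.res
  -- the residue map on `S`
  let g : S → ballO F ⧸ ballM F := fun s => Ideal.Quotient.mk (ballM F) ⟨s.1, hS1 s.1 s.2⟩
  have hg : Function.Bijective g := by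
    constructor
    · intro s t hst
      have h1 : (⟨s.1, hS1 s.1 s.2⟩ - ⟨t.1, hS1 t.1 t.2⟩ : ballO F) ∈ ballM F :=
        (Ideal.Quotient.eq).1 hst
      have h2 : ‖s.1 - t.1‖ < 1 := h1
      obtain ⟨s0, -, hs0⟩ := hS2 s.1 (hS1 s.1 s.2)
      have h3 := hs0 s.1 ⟨s.2, by rw [sub_self, norm_zero]; exact one_pos⟩
      have h4 := hs0 t.1 ⟨t.2, h2⟩
      exact Subtype.ext (h3.trans h4.symm)
    · intro y
      obtain ⟨x, rfl⟩ := Ideal.Quotient.mk_surjective y
      obtain ⟨s0, ⟨hs0, hs1⟩, -⟩ := hS2 x.1 x.2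
      refine ⟨⟨s0, hs0⟩, ?_⟩
      refine (Ideal.Quotient.eq.2 ?_).symm
      change ‖x.1 - s0‖ < 1
      exact hs1
  have hcard : Nat.card (ballO F ⧸ ballM F) = q := by
    rw [← Nat.card_eq_of_bijective g hg]
    simp [hS]
  have : Finite (ballO F ⧸ ballM F) := Finite.of_surjective g hg.2
  obtain ⟨c, hc⟩ := IsCyclic.exists_generator (α := (ballO F ⧸ ballM F)ˣ)
  have hord : orderOf c = q - 1 := by
    rw [orderOf_eq_card_of_forall_mem_zpowers hc, Nat.card_units, hcard]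
  obtain ⟨a, ha⟩ := Ideal.Quotient.mk_surjective (c : ballO F ⧸ ballM F)
  have hak : ∀ k : ℕ, ‖(a : F) ^ k - 1‖ < 1 ↔ (q - 1) ∣ k := by
    intro k
    rw [← hord, orderOf_dvd_iff_pow_eq_one, ← Units.val_eq_one (a := c ^ k), Units.val_pow_eq_pow_val,
      ← ha, ← map_pow, ← (Ideal.Quotient.mk (ballM F)).map_one, Ideal.Quotient.eq]
    exact Iff.rfl
  obtain ⟨z, hz, hza⟩ := teich hF.one_lt hF.q_lt ((hak _).2 dvd_rfl)
  refine ⟨z, ⟨hz, fun l hl => ?_⟩⟩
  rw [← hak l]
  have hz1 : ‖z‖ = 1 := by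
    have h3 : ‖z‖ ^ (q - 1) = 1 := by rw [← norm_pow, hz, norm_one]
    exact (pow_eq_one_iff_of_nonneg (norm_nonneg _) (by have := hF.one_lt; omega)).1 h3
  have hk : ∀ k : ℕ, ‖z ^ k - (a : F) ^ k‖ < 1 := by
    intro k
    induction k with
    | zero => simp
    | succ k ih =>
      have h5 : z ^ (k + 1) - (a : F) ^ (k + 1) = z ^ k * (z - a) + (z ^ k - (a : F) ^ k) * a := by
        ring
      rw [h5]
      refine (IsUltrametricDist.norm_add_le_max _ _).trans_lt (max_lt ?_ ?_)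
      · rw [norm_mul, norm_pow, hz1, one_pow, one_mul]; exact hza
      · rw [norm_mul]
        have h1 : ‖(a : F)‖ ≤ 1 := a.2
        calc _ ≤ ‖z ^ k - (a : F) ^ k‖ * 1 := mul_le_mul_of_nonneg_left h1 (norm_nonneg _)
          _ < 1 := by rw [mul_one]; exact ih
  have h8 : (a : F) ^ l - 1 = -(z ^ l - (a : F) ^ l) := by rw [hl]; ring
  rw [h8, norm_neg]
  exact hk l

end

/-- X -/
theorem exists_root {F : Type u} [NontriviallyNormedField F] [IsUltrametricDist F]
    [CompleteSpace F] {q : ℕ} {p : F} (hF : LF F q p) :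
    ∃ y : F, IsPrimitiveRoot y (q - 1) := exists_root_aux F hF

end Pool.Agent.Helper57.BR
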