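import Pool.Agent.Helper57.BR.Rank

/-!
# Block LOC of project BR: a uniformizer of `D`
-/

set_option autoImplicit false

namespace Pool.Agent.Helper57.BR

open Pool.Agent.Helper56.BR

universe u v w

variable {F : Type u} [NontriviallyNormedField F] {D : Type v} [DivisionRing D] [Algebra F D]
  {nu : D → ℝ}

theorem nu_sum_lt (hnu : NormOn F nu) {ι : Type*} (s : Finset ι) (g : ι → D) {C : ℝ} (hC : 0 < C)
    (h : ∀ i ∈ s, nu (g i) < C) : nu (∑ i ∈ s, g i) < C := by
  classical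
  induction s using Finset.induction_on with
  | empty => rw [Finset.sum_empty, (hnu.eq_zero 0).2 rfl]; exact hC
  | insert a s ha ih =>
    rw [Finset.sum_insert ha]
    exact (hnu.add _ _).trans_lt
      (max_lt (h a (Finset.mem_insert_self _ _))
        (ih fun i hi => h i (Finset.mem_insert_of_mem hi)))

/-- V -/
theorem uniformizer [IsUltrametricDist F] [CompleteSpace F] {q : ℕ} {p : F} (hF : LF F q p)
    [FiniteDimensional F D] (hnu : NormOn F nu) :
    ∃ (P : D) (e : ℕ), 0 < e ∧ 0 < nu P ∧ nu P < 1 ∧ nu P ^ e = ‖p‖ ∧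
      (∀ x : D, x ≠ 0 → ∃ n : ℤ, nu x = nu P ^ n) ∧ e ≤ (minpoly F P).natDegree := by
  classical
  set n := Module.finrank F D with hn
  have hn0 : 0 < n := Module.finrank_pos
  have hp0 : p ≠ 0 := by rw [← norm_ne_zero_iff]; exact hF.pos.ne'
  -- the exponent of `nu x ^ n`
  have hex : ∀ x : D, x ≠ 0 → ∃ k : ℤ, nu x ^ n = ‖p‖ ^ k := by
    intro x hx
    obtain ⟨c, hc⟩ := hnu.pow x
    have hc0 : c ≠ 0 := by
      rintro rfl
      rw [norm_zero] at hc
      exact (pow_pos (nu_pos hnu hx) _).ne' hc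
    obtain ⟨k, hk⟩ := hF.disc c hc0
    exact ⟨k, hc.trans hk⟩
  have hinj : ∀ k l : ℤ, ‖p‖ ^ k = ‖p‖ ^ l → k = l := fun k l h =>
    zpow_right_injective₀ hF.pos hF.lt_one.ne h
  -- the subgroup of exponents
  let G : AddSubgroup ℤ :=
    { carrier := {k | ∃ x : D, x ≠ 0 ∧ nu x ^ n = ‖p‖ ^ k}
      add_mem' := by
        rintro a b ⟨x, hx, hxa⟩ ⟨y, hy, hyb⟩
        exact ⟨x * y, mul_ne_zero hx hy, by
          rw [hnu.mul, mul_pow, hxa, hyb, zpow_add₀ hF.pos.ne']⟩
      zero_mem' := ⟨1, one_ne_zero, by rw [nu_one hnu, one_pow, zpow_zero]⟩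
      neg_mem' := by
        rintro a ⟨x, hx, hxa⟩
        exact ⟨x⁻¹, inv_ne_zero hx, by
          rw [nu_inv hnu, inv_pow, hxa, zpow_neg]⟩ }
  obtain ⟨g, hg⟩ := Int.subgroup_cyclic G
  have hGn : (n : ℤ) ∈ G := by
    refine ⟨algebraMap F D p, ?_, ?_⟩
    · rw [Ne, map_eq_zero]; exact hp0
    · rw [hnu.ext, zpow_natCast]
  -- a positive generator
  obtain ⟨g, hg0, hg⟩ : ∃ g : ℤ, 0 < g ∧ ∀ k : ℤ, k ∈ G ↔ g ∣ k := by
    have h1 : ∀ k : ℤ, k ∈ G ↔ g ∣ k := by
      intro k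
      rw [hg, AddSubgroup.mem_closure_singleton]
      constructor
      · rintro ⟨m, rfl⟩
        exact ⟨m, by rw [smul_eq_mul, mul_comm]⟩
      · rintro ⟨m, rfl⟩
        exact ⟨m, by rw [smul_eq_mul, mul_comm]⟩
    have h2 : g ≠ 0 := by
      rintro rfl
      have := (h1 _).1 hGn
      rw [zero_dvd_iff] at this
      omega
    rcases lt_or_gt_of_ne h2 with h | h
    · exact ⟨-g, by omega, fun k => by rw [h1, neg_dvd]⟩
    · exact ⟨g, h, h1⟩
  obtain ⟨P, hP0, hP⟩ : g ∈ G := (hg g).2 dvd_rfl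
  obtain ⟨e', he'⟩ := (hg _).1 hGn
  have he'0 : 0 < e' := by
    by_contra h
    rw [not_lt] at h
    have h1 : (n : ℤ) ≤ 0 := by
      rw [he']; exact mul_nonpos_of_nonneg_of_nonpos hg0.le h
    omega
  obtain ⟨e, rfl⟩ : ∃ e : ℕ, e' = e := ⟨e'.toNat, (Int.toNat_of_nonneg he'0.le).symm⟩
  have he0 : 0 < e := by exact_mod_cast he'0
  have hnuP : 0 < nu P := nu_pos hnu hP0
  have hpowinj : ∀ a b : ℝ, 0 ≤ a → 0 ≤ b → a ^ n = b ^ n → a = b := fun a b ha hb h =>
    (pow_left_inj₀ ha hb hn0.ne').1 h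
  have hPe : nu P ^ e = ‖p‖ := by
    refine hpowinj _ _ (pow_nonneg hnuP.le _) (norm_nonneg _) ?_
    rw [← pow_mul, mul_comm e n, pow_mul, hP, ← zpow_natCast, ← zpow_mul, ← he', zpow_natCast]
  have hP1 : nu P < 1 := by
    by_contra h
    rw [not_lt] at h
    have h1 : 1 ≤ nu P ^ e := one_le_pow₀ h
    rw [hPe] at h1
    exact absurd hF.lt_one (not_lt.2 h1)
  have hall : ∀ x : D, x ≠ 0 → ∃ m : ℤ, nu x = nu P ^ m := by
    intro x hx
    obtain ⟨k, hk⟩ := hex x hx
    obtain ⟨m, rfl⟩ := (hg k).1 ⟨x, hx, hk⟩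
    refine ⟨m, hpowinj _ _ (hnu.nonneg _) (zpow_nonneg hnuP.le _) ?_⟩
    rw [hk, zpow_mul, ← hP, ← zpow_natCast, ← zpow_natCast, ← zpow_mul, ← zpow_mul, mul_comm]
  refine ⟨P, e, he0, hnuP, hP1, hPe, hall, ?_⟩
  -- the degree
  by_contra hlt
  rw [not_le] at hlt
  have hint : IsIntegral F P := Algebra.IsIntegral.isIntegral P
  have hsum := minpoly.aeval F P
  rw [Polynomial.aeval_eq_sum_range] at hsum
  set r := (minpoly F P).natDegree with hr
  let t : ℕ → D := fun i => (minpoly F P).coeff i • P ^ i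
  have hval : ∀ i, (minpoly F P).coeff i ≠ 0 → ∃ k : ℤ, nu (t i) = nu P ^ (e * k + i) := by
    intro i hi
    obtain ⟨k, hk⟩ := hF.disc _ hi
    refine ⟨k, ?_⟩
    simp only [t]
    rw [Algebra.smul_def, hnu.mul, hnu.ext, nu_pow hnu, hk, ← hPe, zpow_add₀ hnuP.ne', zpow_mul,
      zpow_natCast, zpow_natCast]
  obtain ⟨j, hj, hmax⟩ := Finset.exists_max_image (Finset.range (r + 1)) (fun i => nu (t i))
    ⟨0, Finset.mem_range.2 (Nat.succ_pos _)⟩
  have htr : t r ≠ 0 := by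
    simp only [t]
    have h1 : (minpoly F P).coeff r = 1 := (minpoly.monic hint).coeff_natDegree
    rw [h1, one_smul]
    exact pow_ne_zero _ hP0
  have htj : 0 < nu (t j) := (nu_pos hnu htr).trans_le (hmax r (Finset.self_mem_range_succ r))
  have hcj : (minpoly F P).coeff j ≠ 0 := by
    intro h
    simp only [t, h, zero_smul] at htj
    rw [(hnu.eq_zero 0).2 rfl] at htj
    exact lt_irrefl _ htj
  have hothers : ∀ i ∈ (Finset.range (r + 1)).erase j, nu (t i) < nu (t j) := by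
    intro i hi
    rw [Finset.mem_erase] at hi
    refine lt_of_le_of_ne (hmax i hi.2) fun heq => ?_
    have hci : (minpoly F P).coeff i ≠ 0 := by
      intro h
      simp only [t, h, zero_smul] at heq
      rw [(hnu.eq_zero 0).2 rfl] at heq
      exact htj.ne heq
    obtain ⟨k, hk⟩ := hval i hci
    obtain ⟨l, hl⟩ := hval j hcj
    rw [hk, hl] at heq
    have h1 : (e : ℤ) * k + i = e * l + j := zpow_right_injective₀ hnuP hP1.ne heq
    have hi1 : i < e := by have := Finset.mem_range.1 hi.2; omega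
    have hj1 : j < e := by have := Finset.mem_range.1 hj; omega
    have h2 : ((e : ℤ) * k + i) % e = (e * l + j) % e := by rw [h1]
    rw [Int.add_comm, Int.add_mul_emod_self_left, Int.add_comm, Int.add_mul_emod_self_left,
      Int.emod_eq_of_lt (by omega) (by omega), Int.emod_eq_of_lt (by omega) (by omega)] at h2
    exact hi.1 (by exact_mod_cast h2)
  have hlt2 := nu_sum_lt hnu _ _ htj hothers
  have h3 : t j = -∑ i ∈ (Finset.range (r + 1)).erase j, t i := by
    rw [eq_neg_iff_add_eq_zero, Finset.add_sum_erase _ _ hj]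
    exact hsum
  rw [h3, nu_neg hnu] at hlt2
  exact lt_irrefl _ hlt2

end Pool.Agent.Helper57.BR
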