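import Pool.Agent.Helper57.BR.Teich

/-!
# Block LOC of project BR: the rank of `D` is at most `e f`
-/

set_option autoImplicit false

namespace Pool.Agent.Helper57.BR

open Pool.Agent.Helper56.BR

universe u v w

variable {F : Type u} [NontriviallyNormedField F] {D : Type v} [DivisionRing D] [Algebra F D]
  {nu : D → ℝ}

theorem nu_pow (hnu : NormOn F nu) (x : D) (n : ℕ) : nu (x ^ n) = nu x ^ n := by
  induction n with
  | zero => rw [pow_zero, pow_zero, nu_one hnu]
  | succ n ih => rw [pow_succ, pow_succ, hnu.mul, ih]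

theorem nu_inv (hnu : NormOn F nu) (x : D) : nu x⁻¹ = (nu x)⁻¹ := by
  rcases eq_or_ne x 0 with rfl | hx
  · rw [inv_zero, (hnu.eq_zero 0).2 rfl, inv_zero]
  · have h1 : nu (x⁻¹ * x) = 1 := by rw [inv_mul_cancel₀ hx, nu_one hnu]
    rw [hnu.mul] at h1
    exact eq_inv_of_mul_eq_one_left h1

theorem nu_zpow (hnu : NormOn F nu) (x : D) (n : ℤ) : nu (x ^ n) = nu x ^ n := by
  cases n with
  | ofNat n => rw [Int.ofNat_eq_natCast, zpow_natCast, zpow_natCast, nu_pow hnu]
  | negSucc n => rw [zpow_negSucc, zpow_negSucc, nu_inv hnu, nu_pow hnu]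

theorem nu_pos (hnu : NormOn F nu) {x : D} (hx : x ≠ 0) : 0 < nu x :=
  lt_of_le_of_ne (hnu.nonneg x) fun h => hx ((hnu.eq_zero x).1 h.symm)

/-- S -/
theorem finrank_le [IsUltrametricDist F] [CompleteSpace F] {q : ℕ} {p : F} (hF : LF F q p)
    [FiniteDimensional F D] (hnu : NormOn F nu)
    {P : D} {e : ℕ} (he : 0 < e) (hP0 : 0 < nu P) (hP1 : nu P < 1) (hPe : nu P ^ e = ‖p‖)
    (hP : ∀ x : D, x ≠ 0 → ∃ n : ℤ, nu x = nu P ^ n)
    {f : ℕ} (u : Fin f → D) (hu : ∀ i, nu (u i) ≤ 1)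
    (hu' : ∀ y : D, nu y ≤ 1 → ∃ c : Fin f → F, (∀ i, ‖c i‖ ≤ 1) ∧
          nu (y - ∑ i, algebraMap F D (c i) * u i) < 1) :
    Module.finrank F D ≤ e * f := by
  classical
  let _ := nd hnu
  let _ : NormedSpace F D :=
    { (Algebra.toModule : Module F D) with
      norm_smul_le := fun c x => by
        change nu (c • x) ≤ ‖c‖ * nu x
        rw [Algebra.smul_def, hnu.mul, hnu.ext] }
  let g : Fin f × Fin e → D := fun i => u i.1 * P ^ (i.2 : ℕ)
  let V : Submodule F D := Submodule.span F (Set.range g)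
  have hp0 : p ≠ 0 := by
    rw [← norm_ne_zero_iff]; exact hF.pos.ne'
  have hPne : P ≠ 0 := fun h => hP0.ne' ((hnu.eq_zero P).2 h)
  have hV : V = ⊤ := by
    by_contra hne
    obtain ⟨x, -, hx⟩ := SetLike.exists_of_lt (lt_top_iff_ne_top.2 hne)
    have hcl : IsClosed (V : Set D) := Submodule.closed_of_finiteDimensional V
    have hxV : x ∉ closure (V : Set D) := by rwa [hcl.closure_eq]
    rw [Metric.mem_closure_iff] at hxV
    push Not at hxV
    obtain ⟨ε, hε, hxε⟩ := hxV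
    have hxε' : ∀ v ∈ V, ε ≤ nu (x - v) := hxε
    have hne0 : ∀ v ∈ V, x - v ≠ 0 := fun v hv h => hx (by rw [sub_eq_zero.1 h]; exact hv)
    obtain ⟨N, hN⟩ := exists_pow_lt_of_lt_one hε hP1
    have hbd : ∀ n : ℤ, (∃ v ∈ V, nu (x - v) = nu P ^ n) → n ≤ N := by
      rintro n ⟨v, hv, hn⟩
      by_contra hlt
      rw [not_le] at hlt
      have h1 : nu P ^ n ≤ nu P ^ (N : ℤ) := zpow_le_zpow_right_of_le_one₀ hP0 hP1.le hlt.le
      rw [zpow_natCast] at h1
      have h2 := hxε' v hv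
      rw [hn] at h2
      linarith
    obtain ⟨n, ⟨v, hv, hn⟩, hmax⟩ := Int.exists_greatest_of_bdd (P := fun n : ℤ =>
      ∃ v ∈ V, nu (x - v) = nu P ^ n) ⟨N, hbd⟩ (by
        obtain ⟨n, hn⟩ := hP (x - 0) (hne0 0 V.zero_mem)
        exact ⟨n, 0, V.zero_mem, hn⟩)
    -- improve `v`
    set y := x - v with hy
    set a : ℤ := n / e with ha
    obtain ⟨j, hj⟩ : ∃ j : ℕ, (j : ℤ) = n % e :=
      ⟨(n % e).toNat, Int.toNat_of_nonneg (Int.emod_nonneg _ (by omega))⟩
    have hje : j < e := by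
      have := Int.emod_lt_of_pos n (b := (e : ℤ)) (by omega)
      omega
    have hnaj : n = e * a + j := by rw [hj, ha]; exact (Int.mul_ediv_add_emod n e).symm
    set w : D := algebraMap F D (p ^ (-a)) * y * (P ^ j)⁻¹ with hw
    have hpn : ∀ m : ℤ, nu (algebraMap F D (p ^ m)) = nu P ^ (e * m) := by
      intro m
      rw [hnu.ext, norm_zpow, ← hPe, zpow_mul, zpow_natCast]
    have hw1 : nu w = 1 := by
      rw [hw, hnu.mul, hnu.mul, hpn, hn, nu_inv hnu, nu_pow hnu, ← zpow_natCast, ← zpow_neg,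
        ← zpow_add₀ hP0.ne', ← zpow_add₀ hP0.ne', hnaj]
      have : (e : ℤ) * -a + (e * a + j) + -(j : ℤ) = 0 := by ring
      rw [this, zpow_zero]
    obtain ⟨c, -, hc⟩ := hu' w hw1.le
    set s : D := ∑ i, algebraMap F D (c i) * u i with hs
    set v' : D := algebraMap F D (p ^ a) * s * P ^ j with hv'
    have hv'V : v' ∈ V := by
      have h1 : v' = ∑ i, (p ^ a * c i) • g (i, ⟨j, hje⟩) := by
        rw [hv', hs, Finset.mul_sum, Finset.sum_mul]
        refine Finset.sum_congr rfl fun i _ => ?_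
        rw [Algebra.smul_def, map_mul]
        simp only [g, mul_assoc]
      rw [h1]
      exact V.sum_mem fun i _ => V.smul_mem _ (Submodule.subset_span ⟨_, rfl⟩)
    have hyw : y = algebraMap F D (p ^ a) * w * P ^ j := by
      rw [hw]
      have h1 : algebraMap F D (p ^ a) * algebraMap F D (p ^ (-a)) = 1 := by
        rw [← map_mul, ← zpow_add₀ hp0, add_neg_cancel, zpow_zero, map_one]
      have h2 : (P ^ j)⁻¹ * P ^ j = 1 := inv_mul_cancel₀ (pow_ne_zero _ hPne)
      calc y = (algebraMap F D (p ^ a) * algebraMap F D (p ^ (-a))) * y * ((P ^ j)⁻¹ * P ^ j) := by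
            rw [h1, h2, one_mul, mul_one]
        _ = _ := by simp only [mul_assoc]
    have hlt : nu (x - (v + v')) < nu P ^ n := by
      have h1 : x - (v + v') = algebraMap F D (p ^ a) * (w - s) * P ^ j := by
        rw [mul_sub, sub_mul, ← hyw, ← hv', hy]; abel
      rw [h1, hnu.mul, hnu.mul, hpn, nu_pow hnu, hnaj, zpow_add₀ hP0.ne', zpow_natCast]
      have h3 : 0 < nu P ^ (e * a) := zpow_pos hP0 _
      have h4 : 0 < nu P ^ j := pow_pos hP0 _
      refine mul_lt_mul_of_pos_right ?_ h4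
      calc nu P ^ (e * a) * nu (w - s) < nu P ^ (e * a) * 1 := mul_lt_mul_of_pos_left hc h3
        _ = nu P ^ (e * a) := mul_one _
    obtain ⟨n', hn'⟩ := hP (x - (v + v')) (hne0 _ (V.add_mem hv hv'V))
    have h5 := hmax n' ⟨v + v', V.add_mem hv hv'V, hn'⟩
    rw [hn'] at hlt
    have h6 : nu P ^ n ≤ nu P ^ n' := zpow_le_zpow_right_of_le_one₀ hP0 hP1.le h5
    linarith
  have h7 : Module.finrank F V ≤ Fintype.card (Fin f × Fin e) := finrank_range_le_card g
  rw [hV, finrank_top, Fintype.card_prod, Fintype.card_fin, Fintype.card_fin, mul_comm] at h7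
  exact h7

end Pool.Agent.Helper57.BR
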